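import Pool.Agent.Work.MP_b0293a_gt.Final

namespace Pool.Agent.Results.MP_b0293a_gt.LowCrossing

open Pool.Agent.Work.MP_b0293a_gt

/-- Let `M` be a finite subset of `ℓ₁` with `n ≥ 2` points, `r` a point of `M` and `m` a natural
number such that either (a) at most `m` pairwise crossing coordinate cuts of `M` separate `r` from
one and the same point of `M`, or (b) `M` is contained in a finite subset of `ℓ₁` which is closed
under coordinatewise medians and has less than `2 ^ (m + 1)` points. Then `M` embeds isometrically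
into a real normed space of dimension at most `64512 m² (log n)³`. -/
theorem result (M : Finset L1) (r : L1) (m : ℕ) (hM : 2 ≤ M.card) (hr : r ∈ M)
    (hm : CrossAtMost M r m ∨
      ∃ M' : Finset L1, M ⊆ M' ∧ MedianClosed M' ∧ M'.card < 2 ^ (m + 1)) :
    ∃ (E : Type) (_ : NormedAddCommGroup E) (_ : NormedSpace ℝ E), FiniteDimensional ℝ E ∧
      (Module.finrank ℝ E : ℝ) ≤ 64512 * m ^ 2 * Real.log M.card ^ 3 ∧
      ∃ f : L1 → E, ∀ x ∈ M, ∀ y ∈ M, ‖f x - f y‖ = ‖x - y‖ := by
  obtain ⟨J, B, h1, f, hf⟩ := final M r m hM hr hm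
  exact ⟨Fin J → PiLp 1 (fun _ : Fin B => ℝ), inferInstance, inferInstance, inferInstance, h1, f, hf⟩

end Pool.Agent.Results.MP_b0293a_gt.LowCrossing
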