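import Mathlib
import Pool.Agent.Work.MP_b0293a_gt.Neg.Main

/-!
There is one sequence of `n`-point subsets of `ℓ₁`, `n = 0, 1, 2, ...`, for which the dimension of a
normed space that contains them with bounded distortion grows faster than every power of `log n`.
-/

set_option autoImplicit false

namespace Pool.Agent.Results.MP_b0293a_gt.NoPolylogDimension

open Filter

/-- The space `ℓ₁` of absolutely summable real sequences. -/
abbrev L1 : Type := lp (fun _ : ℕ => ℝ) 1

/-- The finite set `M ⊂ ℓ₁` embeds with distortion at most `D` into the normed space `X`. -/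
def EmbedsInto (M : Finset L1) (X : Type) [NormedAddCommGroup X] (D : ℝ) : Prop :=
  ∃ (f : M → X) (s : ℝ), 0 < s ∧ ∀ x y : M,
    s * dist (x : L1) (y : L1) ≤ ‖f x - f y‖ ∧ ‖f x - f y‖ ≤ s * D * dist (x : L1) (y : L1)

private theorem inj {m : ℕ} (ι : PolyDim.Vec m → L1)
    (hι : ∀ x y, ‖ι x - ι y‖ = PolyDim.nrm (x - y)) : Function.Injective ι := by
  intro x y hxy
  have h := hι x y
  rw [hxy, sub_self, norm_zero] at h
  have h' : ∑ w, |(x - y) w| = 0 := h.symm
  rw [Finset.sum_eq_zero_iff_of_nonneg (fun _ _ => abs_nonneg _)] at h'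
  funext w
  have := h' w (Finset.mem_univ _)
  rw [abs_eq_zero] at this
  have h2 : x w - y w = 0 := this
  linarith

private theorem infinite_L1 : Infinite L1 := by
  refine Infinite.of_injective (fun n : ℕ => (lp.single 1 0 (n : ℝ) : L1)) ?_
  intro a b h
  have h1 := congrArg (fun v : L1 => v 0) h
  simpa using h1

private theorem coord {m : ℕ} (ι : PolyDim.Vec m → L1)
    (hι : ∀ x y, ‖ι x - ι y‖ = PolyDim.nrm (x - y)) (M : Finset L1)
    (hM : ∀ v ∈ PolyDim.Mset m, ι v ∈ M) (D D' : ℝ) (hD1 : 1 ≤ D') (hDD : D ≤ D')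
    (X : Type) [NormedAddCommGroup X] [NormedSpace ℝ X] [FiniteDimensional ℝ X]
    (h : EmbedsInto M X D) : PolyDim.HasCoord m (Module.finrank ℝ X) D' := by
  classical
  obtain ⟨f, r, hr, hf⟩ := h
  have hDr : 0 < D' * r := by positivity
  have hnn : ∀ z : PolyDim.Vec m, 0 ≤ PolyDim.nrm z := fun z =>
    Finset.sum_nonneg (fun _ _ => abs_nonneg _)
  refine PolyDim.coord_of_embedding m D' hD1
    (fun v => (D' * r)⁻¹ • (if h : ι v ∈ M then f ⟨ι v, h⟩ else 0)) ?_ ?_
  · intro x hx y hy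
    have h := (hf ⟨ι x, hM x hx⟩ ⟨ι y, hM y hy⟩).2
    rw [dist_eq_norm, hι] at h
    rw [dif_pos (hM x hx), dif_pos (hM y hy), ← smul_sub, norm_smul, Real.norm_eq_abs,
      abs_of_pos (inv_pos.mpr hDr), inv_mul_le_iff₀ hDr]
    refine le_trans h ?_
    have : r * D ≤ D' * r := by
      rw [mul_comm]
      exact mul_le_mul_of_nonneg_right hDD hr.le
    exact mul_le_mul_of_nonneg_right this (hnn _)
  · intro x hx y hy
    have h := (hf ⟨ι x, hM x hx⟩ ⟨ι y, hM y hy⟩).1
    rw [dist_eq_norm, hι] at h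
    rw [dif_pos (hM x hx), dif_pos (hM y hy), ← smul_sub, norm_smul, Real.norm_eq_abs,
      abs_of_pos (inv_pos.mpr hDr), le_inv_mul_iff₀ hDr]
    have e : D' * r * (PolyDim.nrm (x - y) / D') = r * PolyDim.nrm (x - y) := by
      field_simp
    rw [e]
    exact h

/-- **Theorem.** There are `n`-point sets `M n ⊂ ℓ₁` such that for all `D`, `K`, `C` and all
sufficiently large `n`, every normed space into which `M n` embeds with distortion at most `D` has
dimension larger than `K (log n) ^ C`. -/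
theorem result :
    ∃ M : ℕ → Finset L1, (∀ n, (M n).card = n) ∧
      ∀ D K C : ℝ, ∀ᶠ n : ℕ in atTop,
        ∀ (X : Type) [NormedAddCommGroup X] [NormedSpace ℝ X] [FiniteDimensional ℝ X],
          EmbedsInto (M n) X D → K * (Real.log n) ^ C < (Module.finrank ℝ X : ℝ) := by
  classical
  have := infinite_L1
  choose ι hι using PolyDim.exists_emb
  set mm : ℕ → ℕ := fun n => Nat.findGreatest (fun m => (PolyDim.Mset m).card ≤ n) n with hmm
  have hM : ∀ n : ℕ, ∃ t : Finset L1, t.card = n ∧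
      ((PolyDim.Mset (mm n)).card ≤ n → (PolyDim.Mset (mm n)).image (ι (mm n)) ⊆ t) := by
    intro n
    by_cases h : (PolyDim.Mset (mm n)).card ≤ n
    · obtain ⟨t, ht1, ht2⟩ := Infinite.exists_superset_card_eq
        ((PolyDim.Mset (mm n)).image (ι (mm n))) n (Finset.card_image_le.trans h)
      exact ⟨t, ht2, fun _ => ht1⟩
    · obtain ⟨t, ht⟩ := Infinite.exists_subset_card_eq L1 n
      exact ⟨t, ht, fun h' => absurd h' h⟩
  choose M hMc hMs using hM
  refine ⟨M, hMc, ?_⟩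
  intro D K C
  set D' : ℝ := max D 1 with hD'
  have hD1 : 1 ≤ D' := le_max_right _ _
  have hDD : D ≤ D' := le_max_left _ _
  set C' : ℕ := ⌈|C|⌉₊ with hC'
  have hCC : C ≤ (C' : ℝ) := le_trans (le_abs_self C) (Nat.le_ceil _)
  set K' : ℝ := max K 1 with hK'
  have hK1 : 1 ≤ K' := le_max_right _ _
  have hKK : K ≤ K' := le_max_left _ _
  obtain ⟨κ, hκ, m0, hcore⟩ := PolyDim.core (4 * C' + 1) (by omega) D' hD1
  set m1 : ℕ := max m0 (⌈K' * 320 ^ C' / κ⌉₊ + 1) with hm1
  have hm1a : m0 ≤ m1 := le_max_left _ _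
  have hm1b : ⌈K' * 320 ^ C' / κ⌉₊ + 1 ≤ m1 := le_max_right _ _
  filter_upwards [eventually_ge_atTop (max (max m1 (PolyDim.Mset m1).card) 3)] with n hn X _ _ _ hX
  have hn1 : m1 ≤ n := le_trans (le_trans (le_max_left _ _) (le_max_left _ _)) hn
  have hn2 : (PolyDim.Mset m1).card ≤ n := le_trans (le_trans (le_max_right _ _) (le_max_left _ _)) hn
  have hn3 : 3 ≤ n := le_trans (le_max_right _ _) hn
  have hmge : m1 ≤ mm n := Nat.le_findGreatest hn1 hn2
  have hmP : (PolyDim.Mset (mm n)).card ≤ n :=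
    Nat.findGreatest_spec (P := fun m => (PolyDim.Mset m).card ≤ n) hn1 hn2
  have hsub := hMs n hmP
  have hm1' : 1 ≤ mm n := le_trans (by omega) hmge
  have hmR : (1 : ℝ) ≤ (mm n : ℝ) := by exact_mod_cast hm1'
  have hlow := hcore (mm n) (le_trans hm1a hmge) _ (coord (ι (mm n)) (hι (mm n)) (M n)
    (fun v hv => hsub (Finset.mem_image_of_mem _ hv)) D D' hD1 hDD X hX)
  have hlog1 : 1 ≤ Real.log (n : ℝ) := by
    have h3' : (3 : ℝ) ≤ (n : ℝ) := by exact_mod_cast hn3
    rw [Real.le_log_iff_exp_le (by linarith)]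
    have := Real.exp_one_lt_d9
    linarith
  have hlog2 : Real.log (n : ℝ) ≤ 320 * (mm n : ℝ) ^ 4 := by
    have hstep : Real.log (n : ℝ) ≤ 20 * ((mm n : ℝ) + 1) ^ 4 := by
      rcases (Nat.findGreatest_le (P := fun m => (PolyDim.Mset m).card ≤ n) n).eq_or_lt with h | h
      · have h' : mm n = n := h
        rw [h']
        have hn0 : (0 : ℝ) ≤ n := Nat.cast_nonneg n
        have h4 : Real.log (n : ℝ) ≤ n := (Real.log_le_sub_one_of_pos (by positivity)).trans (by linarith)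
        have h5 : (n : ℝ) + 1 ≤ ((n : ℝ) + 1) ^ 4 := le_self_pow₀ (by linarith) (by norm_num)
        linarith
      · have h' : mm n + 1 ≤ n := h
        have h4 := Nat.findGreatest_is_greatest (P := fun m => (PolyDim.Mset m).card ≤ n)
          (Nat.lt_succ_self _) h'
        have h5 : n < (PolyDim.Mset (mm n + 1)).card := not_le.1 h4
        have h6 := PolyDim.log_card_le (m := mm n + 1) (by omega)
        push_cast at h6
        refine le_trans (Real.log_le_log (by positivity) ?_) h6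
        exact_mod_cast h5.le
    refine hstep.trans ?_
    have h7 : ((mm n : ℝ) + 1) ^ 4 ≤ (2 * (mm n : ℝ)) ^ 4 :=
      pow_le_pow_left₀ (by linarith) (by linarith) 4
    have h8 : (2 * (mm n : ℝ)) ^ 4 = 16 * (mm n : ℝ) ^ 4 := by ring
    linarith
  have hpow : (Real.log (n : ℝ)) ^ C ≤ (320 * (mm n : ℝ) ^ 4) ^ C' := by
    calc (Real.log (n : ℝ)) ^ C ≤ (Real.log (n : ℝ)) ^ (C' : ℝ) :=
          Real.rpow_le_rpow_of_exponent_le hlog1 hCC
      _ = (Real.log (n : ℝ)) ^ C' := Real.rpow_natCast _ _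
      _ ≤ (320 * (mm n : ℝ) ^ 4) ^ C' := pow_le_pow_left₀ (by linarith) hlog2 _
  have hpow0 : 0 ≤ (Real.log (n : ℝ)) ^ C := Real.rpow_nonneg (by linarith) _
  have hup : K * (Real.log (n : ℝ)) ^ C ≤ (K' * 320 ^ C') * (mm n : ℝ) ^ (4 * C') := by
    calc K * (Real.log (n : ℝ)) ^ C ≤ K' * (Real.log (n : ℝ)) ^ C :=
          mul_le_mul_of_nonneg_right hKK hpow0
      _ ≤ K' * (320 * (mm n : ℝ) ^ 4) ^ C' := mul_le_mul_of_nonneg_left hpow (by linarith)
      _ = _ := by rw [mul_pow, ← pow_mul]; ring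
  have hceil : K' * 320 ^ C' / κ < (mm n : ℝ) := by
    calc K' * 320 ^ C' / κ ≤ (⌈K' * 320 ^ C' / κ⌉₊ : ℝ) := Nat.le_ceil _
      _ < ((⌈K' * 320 ^ C' / κ⌉₊ + 1 : ℕ) : ℝ) := by push_cast; linarith
      _ ≤ (mm n : ℝ) := by exact_mod_cast hm1b.trans hmge
  rw [div_lt_iff₀ hκ] at hceil
  have hmp : (0 : ℝ) < (mm n : ℝ) ^ (4 * C') := by positivity
  calc K * (Real.log (n : ℝ)) ^ C ≤ (K' * 320 ^ C') * (mm n : ℝ) ^ (4 * C') := hup
    _ < ((mm n : ℝ) * κ) * (mm n : ℝ) ^ (4 * C') := mul_lt_mul_of_pos_right hceil hmp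
    _ = κ * (mm n : ℝ) ^ (4 * C' + 1) := by rw [pow_succ]; ring
    _ ≤ _ := hlow

end Pool.Agent.Results.MP_b0293a_gt.NoPolylogDimension
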